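import Mathlib

/-!
# Finite biorthogonal systems (helper482, MP_0543b0_an)

`Sys 𝕜 E` is a finite biorthogonal system `(x i, f i)`, `i < m`, in a normed space `E` and its dual.
-/

set_option autoImplicit false

open Metric Set Filter Topology

namespace Run7.h482.SMB

/-- a finite biorthogonal system -/
structure Sys (𝕜 : Type*) [RCLike 𝕜] (E : Type*) [NormedAddCommGroup E] [NormedSpace 𝕜 E] where
  m : ℕ
  x : ℕ → E
  f : ℕ → StrongDual 𝕜 E
  bio : ∀ i < m, ∀ j < m, f i (x j) = if i = j then (1 : 𝕜) else 0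

variable {𝕜 : Type*} [RCLike 𝕜] {E : Type*} [NormedAddCommGroup E] [NormedSpace 𝕜 E]

namespace Sys

/-- `T` extends `S` -/
def Le (S T : Sys 𝕜 E) : Prop := S.m ≤ T.m ∧ ∀ i < S.m, T.x i = S.x i ∧ T.f i = S.f i

theorem Le.refl (S : Sys 𝕜 E) : S.Le S := ⟨le_rfl, fun _ _ => ⟨rfl, rfl⟩⟩

theorem Le.trans {S T U : Sys 𝕜 E} (h : S.Le T) (h' : T.Le U) : S.Le U :=
  ⟨h.1.trans h'.1, fun i hi => ⟨(h'.2 i (hi.trans_le h.1)).1.trans (h.2 i hi).1,
    (h'.2 i (hi.trans_le h.1)).2.trans (h.2 i hi).2⟩⟩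

/-- the projection onto the span of the vectors of the system -/
noncomputable def Q (S : Sys 𝕜 E) : E →L[𝕜] E :=
  ∑ i ∈ Finset.range S.m, (S.f i).smulRight (S.x i)

theorem Q_apply (S : Sys 𝕜 E) (y : E) : S.Q y = ∑ i ∈ Finset.range S.m, S.f i y • S.x i := by
  simp [Q]

theorem f_Q (S : Sys 𝕜 E) (y : E) {i : ℕ} (hi : i < S.m) : S.f i (S.Q y) = S.f i y := by
  rw [Q_apply, map_sum, Finset.sum_eq_single i]
  · simp [S.bio i hi i hi]
  · intro j hj hji
    rw [map_smul, S.bio i hi j (Finset.mem_range.mp hj), if_neg (Ne.symm hji), smul_zero]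
  · intro h
    exact absurd (Finset.mem_range.mpr hi) h

theorem Q_x (S : Sys 𝕜 E) {j : ℕ} (hj : j < S.m) : S.Q (S.x j) = S.x j := by
  rw [Q_apply, Finset.sum_eq_single j]
  · simp [S.bio j hj j hj]
  · intro i hi hij
    rw [S.bio i (Finset.mem_range.mp hi) j hj, if_neg hij, zero_smul]
  · intro h
    exact absurd (Finset.mem_range.mpr hj) h

theorem Q_eq_zero (S : Sys 𝕜 E) {y : E} (h : ∀ i < S.m, S.f i y = 0) : S.Q y = 0 := by
  rw [Q_apply]
  exact Finset.sum_eq_zero fun i hi => by rw [h i (Finset.mem_range.mp hi), zero_smul]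

/-- the projection onto the span of the functionals of the system -/
noncomputable def P (S : Sys 𝕜 E) (u : StrongDual 𝕜 E) : StrongDual 𝕜 E := u.comp S.Q

theorem P_apply (S : Sys 𝕜 E) (u : StrongDual 𝕜 E) (y : E) : S.P u y = u (S.Q y) := rfl

theorem P_eq_sum (S : Sys 𝕜 E) (u : StrongDual 𝕜 E) :
    S.P u = ∑ i ∈ Finset.range S.m, u (S.x i) • S.f i := by
  ext y
  rw [P_apply, Q_apply, map_sum, sum_apply]
  refine Finset.sum_congr rfl fun i _ => ?_
  rw [map_smul, smul_apply, smul_eq_mul, smul_eq_mul, mul_comm]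

theorem P_x (S : Sys 𝕜 E) (u : StrongDual 𝕜 E) {j : ℕ} (hj : j < S.m) :
    S.P u (S.x j) = u (S.x j) := by rw [P_apply, S.Q_x hj]

theorem P_sub (S : Sys 𝕜 E) (u v : StrongDual 𝕜 E) : S.P (u - v) = S.P u - S.P v := by
  ext y; simp [P_apply]

theorem P_smul (S : Sys 𝕜 E) (c : 𝕜) (u : StrongDual 𝕜 E) : S.P (c • u) = c • S.P u := by
  ext y; simp [P_apply]

theorem Le.Q_Q {S T : Sys 𝕜 E} (h : S.Le T) (y : E) : T.Q (S.Q y) = S.Q y := by
  rw [S.Q_apply, map_sum]
  refine Finset.sum_congr rfl fun i hi => ?_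
  have hi' := Finset.mem_range.mp hi
  rw [map_smul, ← (h.2 i hi').1, T.Q_x (hi'.trans_le h.1)]

theorem Le.Q_Q' {S T : Sys 𝕜 E} (h : S.Le T) (y : E) : S.Q (T.Q y) = S.Q y := by
  rw [S.Q_apply, S.Q_apply]
  refine Finset.sum_congr rfl fun i hi => ?_
  have hi' := Finset.mem_range.mp hi
  rw [← (h.2 i hi').2, T.f_Q y (hi'.trans_le h.1)]

theorem Le.cap {S T : Sys 𝕜 E} (h : S.Le T) {y : E} (hy : S.Q y = y) : T.Q y = y := by
  rw [← hy, h.Q_Q]

theorem Le.capD {S T : Sys 𝕜 E} (h : S.Le T) {g : StrongDual 𝕜 E} (hg : S.P g = g) :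
    T.P g = g := by
  ext y
  rw [← hg, P_apply, P_apply, P_apply, h.Q_Q']

/-- adding one pair -/
noncomputable def snoc (S : Sys 𝕜 E) (a : E) (g : StrongDual 𝕜 E) (h1 : ∀ i < S.m, S.f i a = 0)
    (h2 : ∀ i < S.m, g (S.x i) = 0) (h3 : g a = 1) : Sys 𝕜 E where
  m := S.m + 1
  x := Function.update S.x S.m a
  f := Function.update S.f S.m g
  bio := by
    intro i hi j hj
    rcases Nat.lt_succ_iff_lt_or_eq.mp hi with hi' | hi' <;>
      rcases Nat.lt_succ_iff_lt_or_eq.mp hj with hj' | hj'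
    · rw [Function.update_of_ne hi'.ne, Function.update_of_ne hj'.ne]
      exact S.bio i hi' j hj'
    · subst hj'
      rw [Function.update_of_ne hi'.ne, Function.update_self, if_neg hi'.ne]
      exact h1 i hi'
    · subst hi'
      rw [Function.update_of_ne hj'.ne, Function.update_self, if_neg hj'.ne']
      exact h2 j hj'
    · subst hi'
      subst hj'
      rw [Function.update_self, Function.update_self, if_pos rfl]
      exact h3

section snoc

variable (S : Sys 𝕜 E) (a : E) (g : StrongDual 𝕜 E) (h1 : ∀ i < S.m, S.f i a = 0)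
    (h2 : ∀ i < S.m, g (S.x i) = 0) (h3 : g a = 1)

theorem snoc_m : (S.snoc a g h1 h2 h3).m = S.m + 1 := rfl

theorem snoc_x : (S.snoc a g h1 h2 h3).x S.m = a := Function.update_self _ _ _

theorem snoc_f : (S.snoc a g h1 h2 h3).f S.m = g := Function.update_self _ _ _

theorem snoc_le : S.Le (S.snoc a g h1 h2 h3) :=
  ⟨Nat.le_succ _, fun i hi => ⟨Function.update_of_ne hi.ne _ _, Function.update_of_ne hi.ne _ _⟩⟩

theorem snoc_Q (y : E) : (S.snoc a g h1 h2 h3).Q y = S.Q y + g y • a := by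
  rw [Q_apply, snoc_m, Finset.sum_range_succ, snoc_x, snoc_f, Q_apply]
  congr 1
  refine Finset.sum_congr rfl fun i hi => ?_
  have := (S.snoc_le a g h1 h2 h3).2 i (Finset.mem_range.mp hi)
  rw [this.1, this.2]

end snoc

end Sys

/-- finitely many functionals have a common nontrivial zero -/
theorem exists_ne_zero_of_finset (hE : ¬ FiniteDimensional 𝕜 E) (L : Finset (StrongDual 𝕜 E)) :
    ∃ a : E, a ≠ 0 ∧ ∀ φ ∈ L, φ a = 0 := by
  by_contra hcon
  push Not at hcon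
  apply hE
  let T : E →ₗ[𝕜] (L → 𝕜) := LinearMap.pi fun φ => (φ : StrongDual 𝕜 E).toLinearMap
  have hT : Function.Injective T := by
    rw [injective_iff_map_eq_zero]
    intro a ha
    by_contra hne
    obtain ⟨φ, hφ, h⟩ := hcon a hne
    exact h (congrFun ha ⟨φ, hφ⟩)
  exact FiniteDimensional.of_injective T hT

namespace Sys

/-- a new pair which is orthogonal to a finite system and to finitely many further functionals -/
theorem exists_new (hE : ¬ FiniteDimensional 𝕜 E) (S : Sys 𝕜 E) (L : Finset (StrongDual 𝕜 E)) :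
    ∃ (a : E) (ψ : StrongDual 𝕜 E), (∀ i < S.m, S.f i a = 0) ∧ (∀ φ ∈ L, φ a = 0) ∧
      (∀ i < S.m, ψ (S.x i) = 0) ∧ ψ a = 1 := by
  classical
  obtain ⟨a, ha, h⟩ := exists_ne_zero_of_finset hE (L ∪ (Finset.range S.m).image S.f)
  obtain ⟨φ, hφ⟩ := SeparatingDual.exists_eq_one (R := 𝕜) ha
  have hf : ∀ i < S.m, S.f i a = 0 := fun i hi =>
    h _ (Finset.mem_union_right _ (Finset.mem_image_of_mem _ (Finset.mem_range.mpr hi)))
  refine ⟨a, φ - S.P φ, hf, fun ψ hψ => h _ (Finset.mem_union_left _ hψ), fun i hi => ?_, ?_⟩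
  · rw [sub_apply, S.P_x φ hi, sub_self]
  · rw [sub_apply, P_apply, S.Q_eq_zero hf, map_zero, sub_zero, hφ]

theorem exists_cap (hE : ¬ FiniteDimensional 𝕜 E) (S : Sys 𝕜 E) (y : E) :
    ∃ T : Sys 𝕜 E, S.Le T ∧ S.m < T.m ∧ T.Q y = y := by
  by_cases hy : S.Q y = y
  · obtain ⟨a, ψ, h1, -, h2, h3⟩ := S.exists_new hE ∅
    exact ⟨S.snoc a ψ h1 h2 h3, S.snoc_le _ _ _ _ _, Nat.lt_succ_self _,
      (S.snoc_le _ _ _ _ _).cap hy⟩
  · have ha : y - S.Q y ≠ 0 := fun h => hy (sub_eq_zero.mp h).symm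
    obtain ⟨φ, hφ⟩ := SeparatingDual.exists_eq_one (R := 𝕜) ha
    have h1 : ∀ i < S.m, S.f i (y - S.Q y) = 0 := fun i hi => by rw [map_sub, S.f_Q y hi, sub_self]
    have h2 : ∀ i < S.m, (φ - S.P φ) (S.x i) = 0 := fun i hi => by
      rw [sub_apply, S.P_x φ hi, sub_self]
    have h3 : (φ - S.P φ) (y - S.Q y) = 1 := by
      rw [sub_apply, P_apply, S.Q_eq_zero h1, map_zero, sub_zero, hφ]
    refine ⟨S.snoc _ _ h1 h2 h3, S.snoc_le _ _ _ _ _, Nat.lt_succ_self _, ?_⟩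
    have h4 : (φ - S.P φ) y = 1 := by
      have : (φ - S.P φ) (S.Q y) = 0 := by
        rw [sub_apply, P_apply, (Le.refl S).Q_Q, sub_self]
      rw [map_sub, this, sub_zero] at h3
      exact h3
    rw [snoc_Q, h4, one_smul, add_sub_cancel]

theorem exists_capD (S : Sys 𝕜 E) (g : StrongDual 𝕜 E) : ∃ T : Sys 𝕜 E, S.Le T ∧ T.P g = g := by
  by_cases hg : S.P g = g
  · exact ⟨S, Le.refl S, hg⟩
  · have hne : g - S.P g ≠ 0 := fun h => hg (sub_eq_zero.mp h).symm
    obtain ⟨z, hz⟩ : ∃ z, (g - S.P g) z ≠ 0 := by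
      by_contra hcon
      push Not at hcon
      exact hne (ContinuousLinearMap.ext hcon)
    have hQ : ∀ y, (g - S.P g) (S.Q y) = 0 := fun y => by
      rw [sub_apply, P_apply, (Le.refl S).Q_Q, sub_self]
    set a : E := ((g - S.P g) z)⁻¹ • (z - S.Q z) with ha
    have h1 : ∀ i < S.m, S.f i a = 0 := fun i hi => by
      rw [ha, map_smul, map_sub, S.f_Q z hi, sub_self, smul_zero]
    have h2 : ∀ i < S.m, (g - S.P g) (S.x i) = 0 := fun i hi => by
      rw [sub_apply, S.P_x g hi, sub_self]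
    have h3 : (g - S.P g) a = 1 := by
      rw [ha, map_smul, map_sub, hQ, sub_zero, smul_eq_mul, inv_mul_cancel₀ hz]
    refine ⟨S.snoc _ _ h1 h2 h3, S.snoc_le _ _ _ _ _, ?_⟩
    ext y
    have h4 : g a = 1 := by
      rw [sub_apply, P_apply, S.Q_eq_zero h1, map_zero, sub_zero] at h3
      exact h3
    rw [P_apply, snoc_Q, map_add, map_smul, h4, sub_apply, P_apply]
    simp

theorem exists_cap_finset (hE : ¬ FiniteDimensional 𝕜 E) (S : Sys 𝕜 E) (t : Finset E) :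
    ∃ T : Sys 𝕜 E, S.Le T ∧ ∀ y ∈ t, T.Q y = y := by
  classical
  induction t using Finset.induction_on with
  | empty => exact ⟨S, Le.refl S, by simp⟩
  | insert y t _ ih =>
    obtain ⟨T, hT, h⟩ := ih
    obtain ⟨U, hU, -, hy⟩ := T.exists_cap hE y
    refine ⟨U, hT.trans hU, fun z hz => ?_⟩
    rcases Finset.mem_insert.mp hz with rfl | hz
    · exact hy
    · exact hU.cap (h z hz)

/-- the span of the functionals of a system -/
def F (S : Sys 𝕜 E) : Submodule 𝕜 (StrongDual 𝕜 E) :=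
  Submodule.span 𝕜 (S.f '' Set.Iio S.m)

instance (S : Sys 𝕜 E) : FiniteDimensional 𝕜 S.F :=
  FiniteDimensional.span_of_finite 𝕜 ((Set.finite_Iio S.m).image S.f)

theorem P_mem (S : Sys 𝕜 E) (u : StrongDual 𝕜 E) : S.P u ∈ S.F := by
  rw [P_eq_sum]
  refine Submodule.sum_mem _ fun i hi => Submodule.smul_mem _ _ (Submodule.subset_span ?_)
  exact ⟨i, Finset.mem_range.mp hi, rfl⟩

/-- finitely many vectors of the unit ball almost norm the span of the functionals -/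
theorem exists_norming (S : Sys 𝕜 E) : ∃ t : Finset E, (∀ e ∈ t, ‖e‖ ≤ 1) ∧
    ∀ w ∈ S.F, w ≠ 0 → ∃ e ∈ t, ‖w‖ ≤ 2 * ‖w e‖ := by
  classical
  have hcomp : IsCompact (sphere (0 : S.F) 1) := isCompact_sphere _ _
  let U : {e : E // ‖e‖ ≤ 1} → Set S.F := fun e => {w | 1 / 2 < ‖(w : StrongDual 𝕜 E) e‖}
  have hU : ∀ e, IsOpen (U e) := by
    intro e
    refine isOpen_lt continuous_const ?_
    have : Continuous fun w : S.F => (w : StrongDual 𝕜 E) (e : E) :=
      (ContinuousLinearMap.apply 𝕜 𝕜 (e : E)).continuous.comp continuous_subtype_val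
    exact this.norm
  have hcov : sphere (0 : S.F) 1 ⊆ ⋃ e, U e := by
    intro w hw
    have hw1 : ‖(w : StrongDual 𝕜 E)‖ = 1 := by
      have h : dist (w : StrongDual 𝕜 E) 0 = 1 := hw
      rwa [dist_zero_right] at h
    obtain ⟨e, he, h⟩ := (w : StrongDual 𝕜 E).exists_lt_apply_of_lt_opNorm
      (r := 1 / 2) (by rw [hw1]; norm_num)
    exact mem_iUnion.mpr ⟨⟨e, he.le⟩, h⟩
  obtain ⟨s, hs⟩ := hcomp.elim_finite_subcover U hU hcov
  refine ⟨s.image Subtype.val, ?_, ?_⟩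
  · intro e he
    obtain ⟨e', -, rfl⟩ := Finset.mem_image.mp he
    exact e'.2
  · intro w hw hw0
    have hn : 0 < ‖w‖ := norm_pos_iff.mpr hw0
    let w' : S.F := ((‖w‖ : 𝕜)⁻¹) • ⟨w, hw⟩
    have hw' : w' ∈ sphere (0 : S.F) 1 := by
      change dist (((‖w‖ : 𝕜)⁻¹) • w) 0 = 1
      rw [dist_zero_right, norm_smul, norm_inv, RCLike.norm_ofReal, abs_norm, inv_mul_cancel₀ hn.ne']
    obtain ⟨e, he, h⟩ := mem_iUnion₂.mp (hs hw')
    refine ⟨e, Finset.mem_image_of_mem _ he, ?_⟩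
    have h2 : 1 / 2 < ‖(((‖w‖ : 𝕜)⁻¹) • w) (e : E)‖ := h
    rw [smul_apply, norm_smul, norm_inv, RCLike.norm_ofReal, abs_norm] at h2
    rw [lt_inv_mul_iff₀ hn] at h2
    linarith

/-- the tail lemma -/
theorem exists_tail (hE : ¬ FiniteDimensional 𝕜 E) (S : Sys 𝕜 E) :
    ∃ T : Sys 𝕜 E, S.Le T ∧ ∀ u : StrongDual 𝕜 E,
      (∀ i, S.m ≤ i → i < T.m → u (T.x i) = 0) → ‖S.P u‖ ≤ 2 * ‖u‖ := by
  obtain ⟨t, ht1, ht2⟩ := S.exists_norming
  obtain ⟨T, hT, hcap⟩ := S.exists_cap_finset hE t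
  refine ⟨T, hT, fun u hu => ?_⟩
  rcases eq_or_ne (S.P u) 0 with h0 | h0
  · rw [h0, norm_zero]
    positivity
  · obtain ⟨e, he, h⟩ := ht2 _ (S.P_mem u) h0
    have hue : u e = S.P u e := by
      conv_lhs => rw [← hcap e he]
      rw [P_apply, T.Q_apply, S.Q_apply, map_sum, map_sum]
      symm
      have hsub : Finset.range S.m ⊆ Finset.range T.m := Finset.range_subset_range.mpr hT.1
      rw [← Finset.sum_subset hsub]
      · refine Finset.sum_congr rfl fun i hi => ?_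
        have := hT.2 i (Finset.mem_range.mp hi)
        rw [this.1, this.2]
      · intro i hi hi'
        rw [map_smul, hu i (not_lt.mp fun h => hi' (Finset.mem_range.mpr h))
          (Finset.mem_range.mp hi), smul_zero]
    rw [← hue] at h
    have h5 := u.le_opNorm e
    have h6 := ht1 e he
    have h7 : ‖u‖ * ‖e‖ ≤ ‖u‖ := mul_le_of_le_one_right (norm_nonneg _) h6
    linarith

end Sys

end Run7.h482.SMB
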