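import Pool.Agent.Run7.h482.SMB.Basic

/-!
# The block lemma (helper482, MP_0543b0_an)
-/

set_option autoImplicit false

open Metric Set Filter Topology

namespace Run7.h482.SMB

variable {𝕜 : Type*} [RCLike 𝕜] {E : Type*} [NormedAddCommGroup E] [NormedSpace 𝕜 E]

theorem zs (φ : StrongDual 𝕜 E) : (0 : 𝕜) • φ = 0 := zero_smul 𝕜 φ

theorem ads (a b : 𝕜) (φ : StrongDual 𝕜 E) : (a + b) • φ = a • φ + b • φ := add_smul a b φ

theorem sad (a : 𝕜) (φ ψ : StrongDual 𝕜 E) : a • (φ + ψ) = a • φ + a • ψ := smul_add a φ ψ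

namespace Sys

/-- the perturbed system: the functionals with index `≥ M` become small perturbations of the
functional with index `h` -/
noncomputable def pert (T : Sys 𝕜 E) (h M : ℕ) (hM : h < M) (hMT : M ≤ T.m) (δ : 𝕜) (hδ : δ ≠ 0) :
    Sys 𝕜 E where
  m := T.m
  f := fun i => if M ≤ i then T.f h + δ • T.f i else T.f i
  x := fun i => if M ≤ i then δ⁻¹ • T.x i else
    if i = h then T.x h - δ⁻¹ • ∑ r ∈ Finset.Ico M T.m, T.x r else T.x i
  bio := by
    have hh : h < T.m := hM.trans_le hMT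
    have hsum : ∀ i < M, T.f i (∑ r ∈ Finset.Ico M T.m, T.x r) = 0 := by
      intro i hi
      rw [map_sum]
      refine Finset.sum_eq_zero fun r hr => ?_
      rw [Finset.mem_Ico] at hr
      rw [T.bio i (hi.trans_le hMT) r hr.2, if_neg (hi.trans_le hr.1).ne]
    have hsum' : ∀ i, M ≤ i → i < T.m → T.f i (∑ r ∈ Finset.Ico M T.m, T.x r) = 1 := by
      intro i hi hi'
      rw [map_sum, Finset.sum_eq_single i]
      · rw [T.bio i hi' i hi', if_pos rfl]
      · intro r hr hri
        rw [Finset.mem_Ico] at hr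
        rw [T.bio i hi' r hr.2, if_neg (Ne.symm hri)]
      · intro hn
        exact absurd (Finset.mem_Ico.mpr ⟨hi, hi'⟩) hn
    intro i hi j hj
    by_cases hiM : M ≤ i
    · simp only [if_pos hiM]
      by_cases hjM : M ≤ j
      · simp only [if_pos hjM]
        rw [add_apply, smul_apply, map_smul, map_smul, T.bio h hh j hj,
          if_neg (hM.trans_le hjM).ne, T.bio i hi j hj]
        split_ifs with hij
        · simp [hδ]
        · simp
      · simp only [if_neg hjM]
        by_cases hjh : j = h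
        · simp only [if_pos hjh]
          have hne : i ≠ j := by omega
          rw [if_neg hne, add_apply, smul_apply, map_sub, map_sub, map_smul, map_smul,
            hsum h hM, hsum' i hiM hi, T.bio h hh h hh, if_pos rfl, T.bio i hi h hh,
            if_neg (by omega)]
          simp [hδ]
        · simp only [if_neg hjh]
          rw [add_apply, smul_apply, T.bio h hh j hj, if_neg (Ne.symm hjh), T.bio i hi j hj,
            if_neg (by omega : i ≠ j)]
          simp
    · simp only [if_neg hiM]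
      by_cases hjM : M ≤ j
      · simp only [if_pos hjM]
        rw [map_smul, T.bio i hi j hj, if_neg (by omega : i ≠ j), smul_zero]
      · simp only [if_neg hjM]
        by_cases hjh : j = h
        · simp only [if_pos hjh]
          rw [map_sub, map_smul, hsum i (by omega), smul_zero, sub_zero, T.bio i hi h hh, hjh]
        · simp only [if_neg hjh]
          exact T.bio i hi j hj

section pert

variable (T : Sys 𝕜 E) (h M : ℕ) (hM : h < M) (hMT : M ≤ T.m) (δ : 𝕜) (hδ : δ ≠ 0)

theorem pert_m : (T.pert h M hM hMT δ hδ).m = T.m := rfl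

theorem pert_f_of_lt {i : ℕ} (hi : i < M) : (T.pert h M hM hMT δ hδ).f i = T.f i :=
  if_neg (not_le.mpr hi)

theorem pert_f_of_le {i : ℕ} (hi : M ≤ i) :
    (T.pert h M hM hMT δ hδ).f i = T.f h + δ • T.f i := if_pos hi

theorem pert_x_of_le {i : ℕ} (hi : M ≤ i) : (T.pert h M hM hMT δ hδ).x i = δ⁻¹ • T.x i :=
  if_pos hi

theorem pert_x_head : (T.pert h M hM hMT δ hδ).x h =
    T.x h - δ⁻¹ • ∑ r ∈ Finset.Ico M T.m, T.x r := by
  change (if M ≤ h then δ⁻¹ • T.x h else
    if h = h then T.x h - δ⁻¹ • ∑ r ∈ Finset.Ico M T.m, T.x r else T.x h) = _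
  rw [if_neg (not_le.mpr hM), if_pos rfl]

theorem pert_x_of_ne {i : ℕ} (hi : i < M) (hih : i ≠ h) :
    (T.pert h M hM hMT δ hδ).x i = T.x i := by
  change (if M ≤ i then δ⁻¹ • T.x i else
    if i = h then T.x h - δ⁻¹ • ∑ r ∈ Finset.Ico M T.m, T.x r else T.x i) = _
  rw [if_neg (not_le.mpr hi), if_neg hih]

end pert

/-- the span of the functionals with index `< k` and of those on whose vectors `u` does not
vanish -/
def G (N : Sys 𝕜 E) (k : ℕ) (u : StrongDual 𝕜 E) : Submodule 𝕜 (StrongDual 𝕜 E) :=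
  Submodule.span 𝕜 (N.f '' {i | i < N.m ∧ (i < k ∨ u (N.x i) ≠ 0)})

theorem core (hE : ¬ FiniteDimensional 𝕜 E) : ∀ (p : ℕ) (S : Sys 𝕜 E)
    (Φ : ℕ → StrongDual 𝕜 E) (ε : ℝ), 0 < ε → (∀ s < p, ∀ i < S.m, Φ s (S.x i) = 0) →
    ∃ N : Sys 𝕜 E, S.Le N ∧ ∀ u : StrongDual 𝕜 E,
      (∃ v ∈ N.G S.m u, (∀ i < S.m, v (S.x i) = u (S.x i)) ∧ ‖v‖ ≤ (2 + ε) * ‖u‖) ∨
      (∀ s < p, ∃ n, S.m ≤ n ∧ n < N.m ∧ u (N.x n) ≠ 0 ∧ ‖N.f n - Φ s‖ ≤ ε) := by
  intro p
  induction p with
  | zero =>
    intro S Φ ε _ _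
    exact ⟨S, Le.refl S, fun u => Or.inr fun s hs => absurd hs (Nat.not_lt_zero s)⟩
  | succ p ih =>
    intro S Φ ε hε hΦ
    classical
    obtain ⟨a, ψ, ha1, ha2, hψ1, hψ2⟩ := S.exists_new hE ((Finset.range p).image Φ)
    -- the head
    obtain ⟨c, hc1, hc2⟩ : ∃ c : 𝕜, Φ p a + c ≠ 0 ∧ ‖c • ψ‖ ≤ ε / 2 := by
      by_cases h0 : Φ p a = 0
      · refine ⟨((ε / 2 / (‖ψ‖ + 1) : ℝ) : 𝕜), ?_, ?_⟩
        · rw [h0, zero_add]
          exact_mod_cast (by positivity : ε / 2 / (‖ψ‖ + 1) ≠ 0)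
        · rw [norm_smul, RCLike.norm_ofReal, abs_of_pos (by positivity), div_mul_eq_mul_div,
            div_le_iff₀ (by positivity)]
          nlinarith [norm_nonneg ψ]
      · exact ⟨0, by rwa [add_zero], by rw [zs, norm_zero]; positivity⟩
    set φ : StrongDual 𝕜 E := Φ p + c • ψ with hφ
    have hφa : φ a = Φ p a + c := by
      rw [hφ, add_apply, smul_apply, hψ2, smul_eq_mul, mul_one]
    have hφa0 : φ a ≠ 0 := by rw [hφa]; exact hc1
    set b : E := (φ a)⁻¹ • a with hb
    have hb1 : ∀ i < S.m, S.f i b = 0 := fun i hi => by rw [hb, map_smul, ha1 i hi, smul_zero]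
    have hb2 : ∀ i < S.m, φ (S.x i) = 0 := fun i hi => by
      rw [hφ, add_apply, smul_apply, hΦ p (Nat.lt_succ_self p) i hi, hψ1 i hi, smul_zero,
        add_zero]
    have hb3 : φ b = 1 := by rw [hb, map_smul, smul_eq_mul, inv_mul_cancel₀ hφa0]
    set S' := S.snoc b φ hb1 hb2 hb3 with hS'
    have hSS' : S.Le S' := S.snoc_le _ _ _ _ _
    have hS'm : S'.m = S.m + 1 := rfl
    have hS'x : S'.x S.m = b := S.snoc_x _ _ _ _ _
    have hS'f : S'.f S.m = φ := S.snoc_f _ _ _ _ _
    obtain ⟨N', hN', hprop⟩ := ih S' Φ (ε / 2) (by positivity) (by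
      intro s hs i hi
      rcases Nat.lt_succ_iff_lt_or_eq.mp hi with hi' | hi'
      · rw [(hSS'.2 i hi').1]
        exact hΦ s (by omega) i hi'
      · subst hi'
        rw [hS'x, hb, map_smul, ha2 _ (Finset.mem_image_of_mem _ (Finset.mem_range.mpr hs)),
          smul_zero])
    obtain ⟨T, hT, htail⟩ := N'.exists_tail hE
    have hSN' : S.Le N' := hSS'.trans hN'
    have hhN' : S.m < N'.m := lt_of_lt_of_le (Nat.lt_succ_self _) hN'.1
    have hN'x : N'.x S.m = b := by rw [(hN'.2 S.m (Nat.lt_succ_self _)).1, hS'x]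
    have hN'f : N'.f S.m = φ := by rw [(hN'.2 S.m (Nat.lt_succ_self _)).2, hS'f]
    have hTx : T.x S.m = b := by rw [(hT.2 S.m hhN').1, hN'x]
    have hTf : T.f S.m = φ := by rw [(hT.2 S.m hhN').2, hN'f]
    -- the size of the perturbation
    set B : ℝ := ∑ r ∈ Finset.range T.m, ‖T.f r‖ with hB
    have hB0 : 0 ≤ B := Finset.sum_nonneg fun _ _ => norm_nonneg _
    set η : ℝ := ε / 2 / (1 + ‖b‖) with hη
    have hη0 : 0 < η := by positivity
    have hη1 : η ≤ ε / 2 := by
      rw [hη]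
      exact div_le_self (by positivity) (by linarith [norm_nonneg b])
    have hη2 : ‖b‖ * η ≤ ε / 2 := by
      rw [hη, mul_div_assoc', div_le_iff₀ (by positivity)]
      nlinarith [norm_nonneg b]
    set d : ℝ := η / (B + 1) with hd
    have hd0 : 0 < d := by positivity
    have hdc : ((d : ℝ) : 𝕜) ≠ 0 := by exact_mod_cast hd0.ne'
    have hdB : ∀ r < T.m, ‖(d : 𝕜) • T.f r‖ ≤ η := by
      intro r hr
      have h1 : ‖T.f r‖ ≤ B :=
        Finset.single_le_sum (f := fun r => ‖T.f r‖) (fun _ _ => norm_nonneg _)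
          (Finset.mem_range.mpr hr)
      rw [norm_smul, RCLike.norm_ofReal, abs_of_pos hd0, hd, div_mul_eq_mul_div,
        div_le_iff₀ (by positivity)]
      exact mul_le_mul_of_nonneg_left (by linarith) hη0.le
    set N := T.pert S.m N'.m hhN' hT.1 (d : 𝕜) hdc with hN
    have hNm : N.m = T.m := rfl
    have hNx : ∀ i < N'.m, i ≠ S.m → N.x i = N'.x i := fun i hi hne => by
      rw [hN, pert_x_of_ne _ _ _ _ _ _ _ hi hne, (hT.2 i hi).1]
    have hNf : ∀ i < N'.m, N.f i = N'.f i := fun i hi => by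
      rw [hN, pert_f_of_lt _ _ _ _ _ _ _ hi, (hT.2 i hi).2]
    have hSN : S.Le N := by
      refine ⟨hSN'.1.trans hT.1, fun i hi => ⟨?_, ?_⟩⟩
      · rw [hNx i (hi.trans hhN') hi.ne, (hSN'.2 i hi).1]
      · rw [hNf i (hi.trans hhN'), (hSN'.2 i hi).2]
    refine ⟨N, hSN, fun u => ?_⟩
    by_cases hdead : ∀ n, (n = S.m ∨ N'.m ≤ n) → n < T.m → u (N.x n) = 0
    · -- the head and its tail are dead
      left
      have h1 : ∀ r, N'.m ≤ r → r < T.m → u (T.x r) = 0 := by
        intro r hr hr'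
        have := hdead r (Or.inr hr) hr'
        rw [hN, pert_x_of_le _ _ _ _ _ _ _ hr, map_smul, smul_eq_mul] at this
        exact (mul_eq_zero.mp this).resolve_left (inv_ne_zero hdc)
      have h2 : u b = 0 := by
        have := hdead S.m (Or.inl rfl) (hhN'.trans_le hT.1)
        rw [hN, pert_x_head, map_sub, map_smul, map_sum, Finset.sum_eq_zero, smul_zero,
          sub_zero, hTx] at this
        · exact this
        · intro r hr
          rw [Finset.mem_Ico] at hr
          exact h1 r hr.1 hr.2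
      refine ⟨N'.P u, ?_, ?_, ?_⟩
      · rw [P_eq_sum]
        refine Submodule.sum_mem _ fun i hi => ?_
        rw [Finset.mem_range] at hi
        by_cases hne : i = S.m
        · rw [hne, hN'x, h2, zs]
          exact Submodule.zero_mem _
        · by_cases hu : u (N'.x i) = 0
          · rw [hu, zs]
            exact Submodule.zero_mem _
          · refine Submodule.smul_mem _ _ (Submodule.subset_span ⟨i, ⟨hi.trans_le hT.1, ?_⟩,
              hNf i hi⟩)
            right
            rwa [hNx i hi hne]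
      · intro i hi
        rw [← (hSN'.2 i hi).1, N'.P_x u (hi.trans hhN')]
      · have := htail u h1
        nlinarith [norm_nonneg u]
    · push Not at hdead
      obtain ⟨n₀, hn₀, hn₀T, hun₀⟩ := hdead
      have hclose : ‖N.f n₀ - φ‖ ≤ η := by
        rcases hn₀ with rfl | hn₀
        · rw [hNf _ hhN', hN'f, sub_self, norm_zero]
          exact hη0.le
        · rw [hN, pert_f_of_le _ _ _ _ _ _ _ hn₀, hTf, add_sub_cancel_left]
          exact hdB n₀ hn₀T
      have hn₀S : S.m ≤ n₀ := by omega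
      rcases hprop u with ⟨v, hv1, hv2, hv3⟩ | hall
      · left
        have key : ∀ w ∈ N'.G S'.m u, w - w b • φ ∈ N.G S.m u := by
          intro w hw
          unfold G at hw
          induction hw using Submodule.span_induction with
          | mem w hw =>
            obtain ⟨i, ⟨hi, hi'⟩, rfl⟩ := hw
            by_cases hne : i = S.m
            · rw [hne, hN'f, hb3, one_smul, sub_self]
              exact Submodule.zero_mem _
            · have h0 : N'.f i b = 0 := by
                rw [← hN'x, N'.bio i hi _ hhN', if_neg hne]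
              rw [h0, zs, sub_zero]
              refine Submodule.subset_span ⟨i, ⟨hi.trans_le hT.1, ?_⟩, hNf i hi⟩
              rcases hi' with hi' | hi'
              · left
                rw [hS'm] at hi'
                omega
              · right
                rwa [hNx i hi hne]
          | zero =>
            rw [zero_apply, zs, sub_zero]
            exact Submodule.zero_mem _
          | add w₁ w₂ _ _ h₁ h₂ =>
            have : w₁ + w₂ - (w₁ + w₂) b • φ = (w₁ - w₁ b • φ) + (w₂ - w₂ b • φ) := by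
              rw [add_apply, ads]
              abel
            rw [this]
            exact Submodule.add_mem _ h₁ h₂
          | smul t w _ h =>
            have : t • w - (t • w) b • φ = t • (w - w b • φ) := by
              rw [smul_apply, smul_sub, smul_eq_mul, mul_smul]
            rw [this]
            exact Submodule.smul_mem _ _ h
        have hvb : v b = u b := by
          have := hv2 S.m (Nat.lt_succ_self _)
          rwa [hS'x] at this
        refine ⟨v + u b • (N.f n₀ - φ), ?_, ?_, ?_⟩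
        · have : v + u b • (N.f n₀ - φ) = (v - v b • φ) + u b • N.f n₀ := by
            rw [hvb, smul_sub]
            abel
          rw [this]
          refine Submodule.add_mem _ (key v hv1) (Submodule.smul_mem _ _
            (Submodule.subset_span ⟨n₀, ⟨hn₀T, Or.inr hun₀⟩, rfl⟩))
        · intro i hi
          have h1 : N.f n₀ (S.x i) = 0 := by
            rw [← (hSN.2 i hi).1, N.bio n₀ hn₀T i (hi.trans_le hSN.1), if_neg (by omega)]
          have h2 := hv2 i (hi.trans (Nat.lt_succ_self _))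
          rw [(hSS'.2 i hi).1] at h2
          rw [add_apply, smul_apply, sub_apply, h1, hb2 i hi, sub_zero, smul_zero, add_zero, h2]
        · calc ‖v + u b • (N.f n₀ - φ)‖ ≤ ‖v‖ + ‖u b • (N.f n₀ - φ)‖ := norm_add_le _ _
            _ ≤ (2 + ε / 2) * ‖u‖ + (‖u‖ * ‖b‖) * η := by
              refine add_le_add hv3 ?_
              rw [norm_smul]
              exact mul_le_mul (u.le_opNorm b) hclose (norm_nonneg _) (by positivity)
            _ ≤ (2 + ε) * ‖u‖ := by nlinarith [norm_nonneg u, hη2]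
      · right
        intro s hs
        rcases Nat.lt_succ_iff_lt_or_eq.mp hs with hs' | rfl
        · obtain ⟨n, hn1, hn2, hn3, hn4⟩ := hall s hs'
          rw [hS'm] at hn1
          refine ⟨n, by omega, hn2.trans_le hT.1, ?_, ?_⟩
          · rwa [hNx n hn2 (by omega)]
          · rw [hNf n hn2]
            linarith
        · refine ⟨n₀, hn₀S, hn₀T, hun₀, ?_⟩
          have h1 : N.f n₀ - Φ s = (N.f n₀ - φ) + c • ψ := by rw [hφ]; abel
          rw [h1]
          calc _ ≤ ‖N.f n₀ - φ‖ + ‖c • ψ‖ := norm_add_le _ _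
            _ ≤ ε / 2 + ε / 2 := add_le_add (hclose.trans hη1) hc2
            _ = ε := by ring

/-- the values of the projection on the unit ball are totally bounded -/
theorem exists_net (S : Sys 𝕜 E) : ∃ (p : ℕ) (w : ℕ → StrongDual 𝕜 E), (∀ s < p, ‖w s‖ ≤ 1) ∧
    ∀ u : StrongDual 𝕜 E, ‖u‖ ≤ 1 → ∃ s < p, ‖S.P u - S.P (w s)‖ ≤ 1 / 2 := by
  classical
  let K : Set (StrongDual 𝕜 E) := S.P '' closedBall 0 1
  have hK : TotallyBounded K := by
    have hcomp : IsCompact (closedBall (0 : S.F) ‖S.Q‖) := isCompact_closedBall _ _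
    have h1 : IsCompact (Subtype.val '' closedBall (0 : S.F) ‖S.Q‖) :=
      hcomp.image continuous_subtype_val
    refine h1.totallyBounded.subset ?_
    rintro _ ⟨u, hu, rfl⟩
    refine ⟨⟨S.P u, S.P_mem u⟩, ?_, rfl⟩
    have hu1 : ‖u‖ ≤ 1 := by simpa using hu
    change dist (S.P u) 0 ≤ ‖S.Q‖
    rw [dist_zero_right]
    calc ‖S.P u‖ ≤ ‖u‖ * ‖S.Q‖ := u.opNorm_comp_le _
      _ ≤ 1 * ‖S.Q‖ := by gcongr
      _ = ‖S.Q‖ := one_mul _
  obtain ⟨t, htK, htf, hcov⟩ := Metric.finite_approx_of_totallyBounded hK (1 / 2) (by norm_num)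
  obtain ⟨p, g, hg⟩ : ∃ (p : ℕ) (g : ℕ → StrongDual 𝕜 E), t = g '' Set.Iio p := by
    obtain ⟨l, hl⟩ := htf.exists_finset
    refine ⟨l.toList.length, fun i => l.toList.getD i 0, ?_⟩
    ext z
    rw [← hl z, ← Finset.mem_toList, List.mem_iff_getElem]
    constructor
    · rintro ⟨i, hi, rfl⟩
      exact ⟨i, hi, List.getD_eq_getElem _ _ hi⟩
    · rintro ⟨i, hi, rfl⟩
      refine ⟨i, hi, ?_⟩
      have hi' : i < l.toList.length := hi
      exact (List.getD_eq_getElem _ _ hi').symm
  have hw : ∀ s, ∃ w : StrongDual 𝕜 E, s < p → ‖w‖ ≤ 1 ∧ S.P w = g s := by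
    intro s
    by_cases hs : s < p
    · obtain ⟨w, hw, hw'⟩ := htK (by rw [hg]; exact ⟨s, hs, rfl⟩ : g s ∈ t)
      exact ⟨w, fun _ => ⟨by simpa using hw, hw'⟩⟩
    · exact ⟨0, fun h => absurd h hs⟩
  choose w hw using hw
  refine ⟨p, w, fun s hs => (hw s hs).1, fun u hu => ?_⟩
  obtain ⟨z, hz, hz'⟩ := mem_iUnion₂.mp (hcov ⟨u, by simpa using hu, rfl⟩)
  rw [hg] at hz
  obtain ⟨s, hs, rfl⟩ := hz
  refine ⟨s, hs, ?_⟩
  rw [(hw s hs).2, ← dist_eq_norm]
  exact (mem_ball.mp hz').le

/-- the block lemma -/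
theorem exists_block (hE : ¬ FiniteDimensional 𝕜 E) (S : Sys 𝕜 E) :
    ∃ N : Sys 𝕜 E, S.Le N ∧ ∀ u : StrongDual 𝕜 E,
      ∃ v ∈ N.G S.m u, (∀ i < S.m, v (S.x i) = u (S.x i)) ∧ ‖v‖ ≤ 3 * ‖u‖ := by
  obtain ⟨p, w, hw1, hw2⟩ := S.exists_net
  obtain ⟨N, hSN, hN⟩ := core hE p S (fun s => w s - S.P (w s)) (1 / 2) (by norm_num)
    (fun s _ i hi => by rw [sub_apply, S.P_x _ hi, sub_self])
  refine ⟨N, hSN, fun u => ?_⟩
  rcases hN u with ⟨v, hv1, hv2, hv3⟩ | hall
  · exact ⟨v, hv1, hv2, hv3.trans (by nlinarith [norm_nonneg u])⟩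
  · rcases eq_or_ne u 0 with rfl | hu
    · exact ⟨0, Submodule.zero_mem _, fun i _ => rfl, by simp⟩
    · have hn : 0 < ‖u‖ := norm_pos_iff.mpr hu
      have hnc : ((‖u‖ : ℝ) : 𝕜) ≠ 0 := by exact_mod_cast hn.ne'
      obtain ⟨s, hs, hs'⟩ := hw2 (((‖u‖ : 𝕜)⁻¹) • u) (by
        rw [norm_smul, norm_inv, RCLike.norm_ofReal, abs_norm, inv_mul_cancel₀ hn.ne'])
      obtain ⟨n, hn1, hn2, hn3, hn4⟩ := hall s hs
      refine ⟨S.P u + (‖u‖ : 𝕜) • N.f n, ?_, ?_, ?_⟩
      · refine Submodule.add_mem _ ?_ (Submodule.smul_mem _ _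
          (Submodule.subset_span ⟨n, ⟨hn2, Or.inr hn3⟩, rfl⟩))
        rw [P_eq_sum]
        refine Submodule.sum_mem _ fun i hi => Submodule.smul_mem _ _ (Submodule.subset_span ?_)
        have hi' := Finset.mem_range.mp hi
        exact ⟨i, ⟨hi'.trans_le hSN.1, Or.inl hi'⟩, (hSN.2 i hi').2⟩
      · intro i hi
        have h1 : N.f n (S.x i) = 0 := by
          rw [← (hSN.2 i hi).1, N.bio n hn2 i (hi.trans_le hSN.1), if_neg (by omega)]
        rw [add_apply, smul_apply, h1, smul_zero, add_zero, S.P_x u hi]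
      · have h1 : S.P u + (‖u‖ : 𝕜) • N.f n = (‖u‖ : 𝕜) •
            ((S.P (((‖u‖ : 𝕜)⁻¹) • u) - S.P (w s)) + w s + (N.f n - (w s - S.P (w s)))) := by
          rw [P_smul]
          have : S.P u = (‖u‖ : 𝕜) • ((‖u‖ : 𝕜)⁻¹ • S.P u) := by
            rw [smul_smul, mul_inv_cancel₀ hnc, one_smul]
          conv_lhs => rw [this]
          rw [← sad]
          congr 1
          abel
        rw [h1, norm_smul, RCLike.norm_ofReal, abs_norm, mul_comm]
        refine mul_le_mul_of_nonneg_right ?_ (norm_nonneg _)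
        calc _ ≤ ‖S.P (((‖u‖ : 𝕜)⁻¹) • u) - S.P (w s)‖ + ‖w s‖ +
              ‖N.f n - (w s - S.P (w s))‖ := norm_add₃_le
          _ ≤ 1 / 2 + 1 + 1 / 2 := add_le_add (add_le_add hs' (hw1 s hs)) hn4
          _ ≤ 3 := by norm_num

end Sys

end Run7.h482.SMB
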