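import Pool.Agent.Run7.h482.SMB.Core

/-!
# Biorthogonal systems whose dual system is a strong M-basis (helper482, MP_0543b0_an)
-/

set_option autoImplicit false

open Metric Set Filter Topology

namespace Run7.h482.SMB

variable {𝕜 : Type*} [RCLike 𝕜] {E : Type*} [NormedAddCommGroup E] [NormedSpace 𝕜 E]

namespace Sys

/-- elements of the span of part of the functionals -/
theorem span_props (N : Sys 𝕜 E) (I : Set ℕ) (hI : ∀ i ∈ I, i < N.m) {w : StrongDual 𝕜 E}
    (hw : w ∈ Submodule.span 𝕜 (N.f '' I)) :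
    (∀ j < N.m, j ∉ I → w (N.x j) = 0) ∧ N.P w = w := by
  induction hw using Submodule.span_induction with
  | mem w hw =>
    obtain ⟨i, hi, rfl⟩ := hw
    refine ⟨fun j hj hjI => ?_, ?_⟩
    · rw [N.bio i (hI i hi) j hj, if_neg (by rintro rfl; exact hjI hi)]
    · ext y
      rw [P_apply, N.f_Q y (hI i hi)]
  | zero => exact ⟨fun j _ _ => rfl, by ext y; rfl⟩
  | add w₁ w₂ _ _ h₁ h₂ =>
    refine ⟨fun j hj hjI => ?_, ?_⟩
    · rw [add_apply, h₁.1 j hj hjI, h₂.1 j hj hjI, add_zero]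
    · ext y
      rw [P_apply, add_apply, ← P_apply, ← P_apply, h₁.2, h₂.2, add_apply]
  | smul t w _ h =>
    refine ⟨fun j hj hjI => ?_, ?_⟩
    · rw [smul_apply, h.1 j hj hjI, smul_zero]
    · rw [P_smul, h.2]

/-- the approximation step -/
theorem approx {S N : Sys 𝕜 E} (hSN : S.Le N)
    (hN : ∀ u : StrongDual 𝕜 E, ∃ v ∈ N.G S.m u, (∀ i < S.m, v (S.x i) = u (S.x i)) ∧
      ‖v‖ ≤ 3 * ‖u‖) (g h : StrongDual 𝕜 E) (hh : S.P h = h) :
    ∃ w ∈ Submodule.span 𝕜 (N.f '' {i | i < N.m ∧ g (N.x i) ≠ 0}), ‖g - w‖ ≤ 4 * ‖g - h‖ := by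
  obtain ⟨v, hv1, hv2, hv3⟩ := hN (g - h)
  have hhx : ∀ i, S.m ≤ i → i < N.m → h (N.x i) = 0 := by
    intro i hi hi'
    rw [← hh, P_apply, S.Q_eq_zero, map_zero]
    intro j hj
    rw [← (hSN.2 j hj).2, N.bio j (hj.trans_le hSN.1) i hi', if_neg (by omega)]
  set I : Set ℕ := {i | i < N.m ∧ (i < S.m ∨ g (N.x i) ≠ 0)} with hI
  have hv : v ∈ Submodule.span 𝕜 (N.f '' I) := by
    refine Submodule.span_mono (Set.image_mono ?_) hv1
    rintro i ⟨hi, hi'⟩
    refine ⟨hi, ?_⟩
    by_cases hiS : i < S.m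
    · exact Or.inl hiS
    · right
      have := hi'.resolve_left hiS
      rwa [sub_apply, hhx i (not_lt.mp hiS) hi, sub_zero] at this
  have hh' : h ∈ Submodule.span 𝕜 (N.f '' I) := by
    rw [← hh, P_eq_sum]
    refine Submodule.sum_mem _ fun i hi => Submodule.smul_mem _ _ (Submodule.subset_span ?_)
    have hi' := Finset.mem_range.mp hi
    exact ⟨i, ⟨hi'.trans_le hSN.1, Or.inl hi'⟩, (hSN.2 i hi').2⟩
  have hw := Submodule.add_mem _ hh' hv
  obtain ⟨h1, h2⟩ := N.span_props I (fun i hi => hi.1) hw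
  refine ⟨h + v, ?_, ?_⟩
  · rw [← h2, P_eq_sum]
    refine Submodule.sum_mem _ fun i hi => ?_
    have hi' := Finset.mem_range.mp hi
    by_cases h0 : (h + v) (N.x i) = 0
    · rw [h0, zs]
      exact Submodule.zero_mem _
    · refine Submodule.smul_mem _ _ (Submodule.subset_span ⟨i, ⟨hi', ?_⟩, rfl⟩)
      by_cases hiS : i < S.m
      · have h3 : (h + v) (N.x i) = g (N.x i) := by
          rw [add_apply, (hSN.2 i hiS).1, hv2 i hiS, sub_apply, add_sub_cancel]
        rwa [h3] at h0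
      · by_contra hg
        exact h0 (h1 i hi' fun hmem => (hmem.2.resolve_left hiS) hg)
  · have : g - (h + v) = (g - h) - v := by abel
    rw [this]
    calc _ ≤ ‖g - h‖ + ‖v‖ := norm_sub_le _ _
      _ ≤ ‖g - h‖ + 3 * ‖g - h‖ := by gcongr
      _ = 4 * ‖g - h‖ := by ring

end Sys

/-- one stage of the construction -/
theorem exists_stage (hE : ¬ FiniteDimensional 𝕜 E) (S : Sys 𝕜 E) (h : StrongDual 𝕜 E) :
    ∃ N : Sys 𝕜 E, S.Le N ∧ S.m < N.m ∧ ∀ g : StrongDual 𝕜 E,
      ∃ w ∈ Submodule.span 𝕜 (N.f '' {i | i < N.m ∧ g (N.x i) ≠ 0}), ‖g - w‖ ≤ 4 * ‖g - h‖ := by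
  obtain ⟨T, hT, hT'⟩ := S.exists_capD h
  obtain ⟨U, hU, hlt, -⟩ := T.exists_cap hE 0
  obtain ⟨N, hN, hN'⟩ := U.exists_block hE
  exact ⟨N, (hT.trans hU).trans hN, lt_of_le_of_lt hT.1 (hlt.trans_le hN.1), fun g =>
    Sys.approx hN hN' g h (hU.capD hT')⟩

/-- **Main construction.** -/
theorem exists_system (hE : ¬ FiniteDimensional 𝕜 E)
    [TopologicalSpace.SeparableSpace (StrongDual 𝕜 E)] :
    ∃ (x : ℕ → E) (f : ℕ → StrongDual 𝕜 E), (∀ i j, f i (x j) = if i = j then 1 else 0) ∧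
      ∀ g : StrongDual 𝕜 E, g ∈ closure ((Submodule.span 𝕜 (f '' {n | g (x n) ≠ 0}) :
        Submodule 𝕜 (StrongDual 𝕜 E)) : Set (StrongDual 𝕜 E)) := by
  classical
  set D : ℕ → StrongDual 𝕜 E := TopologicalSpace.denseSeq (StrongDual 𝕜 E) with hD
  choose nx hnx1 hnx2 hnx3 using fun (S : Sys 𝕜 E) (h : StrongDual 𝕜 E) => exists_stage hE S h
  let S₀ : Sys 𝕜 E := ⟨0, fun _ => 0, fun _ => 0, fun i hi => absurd hi (Nat.not_lt_zero i)⟩
  let S : ℕ → Sys 𝕜 E := fun n => Nat.rec S₀ (fun k T => nx T (D k)) n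
  have hS : ∀ n, S (n + 1) = nx (S n) (D n) := fun _ => rfl
  have hle1 : ∀ n, (S n).Le (S (n + 1)) := fun n => by rw [hS]; exact hnx1 _ _
  have hlt1 : ∀ n, (S n).m < (S (n + 1)).m := fun n => by rw [hS]; exact hnx2 _ _
  have hle : ∀ a b, a ≤ b → (S a).Le (S b) := by
    intro a b hab
    induction b, hab using Nat.le_induction with
    | base => exact Sys.Le.refl _
    | succ b _ ih => exact ih.trans (hle1 b)
  have hm : ∀ n, n ≤ (S n).m := by
    intro n
    induction n with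
    | zero => exact Nat.zero_le _
    | succ n ih => exact Nat.succ_le_of_lt (lt_of_le_of_lt ih (hlt1 n))
  have hm' : ∀ n, n < (S (n + 1)).m := fun n => lt_of_lt_of_le (Nat.lt_succ_self n) (hm (n + 1))
  have hxf : ∀ k i, i < (S k).m → (S (i + 1)).x i = (S k).x i ∧ (S (i + 1)).f i = (S k).f i := by
    intro k i hi
    rcases le_total k (i + 1) with h | h
    · exact (hle _ _ h).2 i hi
    · have := (hle _ _ h).2 i (hm' i)
      exact ⟨this.1.symm, this.2.symm⟩
  refine ⟨fun n => (S (n + 1)).x n, fun n => (S (n + 1)).f n, fun i j => ?_, fun g => ?_⟩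
  · have h1 : i < (S (max i j + 1)).m := lt_of_le_of_lt (le_max_left i j) (hm' _)
    have h2 : j < (S (max i j + 1)).m := lt_of_le_of_lt (le_max_right i j) (hm' _)
    change (S (i + 1)).f i ((S (j + 1)).x j) = _
    rw [(hxf (max i j + 1) i h1).2, (hxf (max i j + 1) j h2).1]
    exact (S (max i j + 1)).bio i h1 j h2
  · rw [Metric.mem_closure_iff]
    intro ε hε
    obtain ⟨k, hk⟩ := (TopologicalSpace.denseRange_denseSeq (StrongDual 𝕜 E)).exists_dist_lt g
      (ε := ε / 5) (by positivity)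
    obtain ⟨w, hw1, hw2⟩ := hnx3 (S k) (D k) g
    rw [← hS] at hw1
    refine ⟨w, ?_, ?_⟩
    · refine Submodule.span_mono ?_ hw1
      rintro _ ⟨i, ⟨hi, hi'⟩, rfl⟩
      exact ⟨i, by
        change g ((S (i + 1)).x i) ≠ 0
        rwa [(hxf (k + 1) i hi).1], (hxf (k + 1) i hi).2⟩
    · rw [dist_eq_norm] at hk ⊢
      have : ‖g - D k‖ < ε / 5 := hk
      linarith

/-- a functional which vanishes on a subspace but not at a point outside its closure -/
theorem exists_sep (W : Submodule 𝕜 E) {y : E} (hy : y ∉ closure (W : Set E)) :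
    ∃ g : StrongDual 𝕜 E, (∀ z ∈ W, g z = 0) ∧ g y ≠ 0 := by
  have hcl : IsClosed (W.topologicalClosure : Set E) := W.isClosed_topologicalClosure
  have hy' : y ∉ W.topologicalClosure := fun h => hy (by
    rwa [← Submodule.topologicalClosure_coe])
  have := hcl
  have hne : W.topologicalClosure.mkQ y ≠ 0 := by
    rw [Submodule.mkQ_apply, ne_eq, Submodule.Quotient.mk_eq_zero]
    exact hy'
  obtain ⟨φ, hφ⟩ := SeparatingDual.exists_eq_one (R := 𝕜) hne
  refine ⟨φ.comp W.topologicalClosure.mkQL, fun z hz => ?_, ?_⟩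
  · have : W.topologicalClosure.mkQ z = 0 := by
      rw [Submodule.mkQ_apply, Submodule.Quotient.mk_eq_zero]
      exact W.le_topologicalClosure hz
    change φ (W.topologicalClosure.mkQ z) = 0
    rw [this, map_zero]
  · change φ (W.topologicalClosure.mkQ y) ≠ 0
    rw [hφ]
    exact one_ne_zero

/-- **Every normed space with separable dual has a biorthogonal system `(x, f)`, complete in the
space and in the dual, such that for every set `A` of indices the closed span of `f n`, `n ∈ A`,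
is the annihilator of the vectors `x n`, `n ∉ A`.** -/
theorem exists_strong_dual (hE : ¬ FiniteDimensional 𝕜 E)
    [TopologicalSpace.SeparableSpace (StrongDual 𝕜 E)] :
    ∃ (x : ℕ → E) (f : ℕ → StrongDual 𝕜 E), (∀ i j, f i (x j) = if i = j then 1 else 0) ∧
      Dense ((Submodule.span 𝕜 (Set.range x) : Submodule 𝕜 E) : Set E) ∧
      Dense ((Submodule.span 𝕜 (Set.range f) : Submodule 𝕜 (StrongDual 𝕜 E)) :
        Set (StrongDual 𝕜 E)) ∧
      ∀ A : Set ℕ, closure ((Submodule.span 𝕜 (f '' A) : Submodule 𝕜 (StrongDual 𝕜 E)) :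
        Set (StrongDual 𝕜 E)) = {g | ∀ n, n ∉ A → g (x n) = 0} := by
  obtain ⟨x, f, hb, hs⟩ := exists_system (𝕜 := 𝕜) (E := E) hE
  refine ⟨x, f, hb, ?_, ?_, fun A => ?_⟩
  · intro y
    by_contra hy
    obtain ⟨g, hg1, hg2⟩ := exists_sep _ hy
    have h1 : {n | g (x n) ≠ 0} = ∅ := by
      ext n
      simp only [mem_ofPred_eq, mem_empty_iff_false, iff_false, not_not]
      exact hg1 _ (Submodule.subset_span ⟨n, rfl⟩)
    have h2 := hs g
    rw [h1, image_empty, Submodule.span_empty, Submodule.bot_coe, closure_singleton,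
      mem_singleton_iff] at h2
    exact hg2 (by rw [h2]; rfl)
  · intro g
    refine closure_mono ?_ (hs g)
    exact Submodule.span_mono (Set.image_subset_range _ _)
  · apply Subset.antisymm
    · have hclosed : IsClosed {g : StrongDual 𝕜 E | ∀ n, n ∉ A → g (x n) = 0} := by
        have : {g : StrongDual 𝕜 E | ∀ n, n ∉ A → g (x n) = 0} =
            ⋂ n, ⋂ (_ : n ∉ A), {g : StrongDual 𝕜 E | g (x n) = 0} := by
          ext g
          simp
        rw [this]
        refine isClosed_iInter fun n => isClosed_iInter fun _ => ?_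
        exact isClosed_eq (ContinuousLinearMap.apply 𝕜 𝕜 (x n)).continuous continuous_const
      refine closure_minimal ?_ hclosed
      intro g hg n hn
      have hg' : g ∈ Submodule.span 𝕜 (f '' A) := hg
      induction hg' using Submodule.span_induction with
      | mem g hg' =>
        obtain ⟨i, hi, rfl⟩ := hg'
        rw [hb, if_neg (by rintro rfl; exact hn hi)]
      | zero => rfl
      | add g₁ g₂ h₁ h₂ ih₁ ih₂ => rw [add_apply, ih₁ h₁, ih₂ h₂, add_zero]
      | smul t g h ih => rw [smul_apply, ih h, smul_zero]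
    · intro g hg
      refine closure_mono ?_ (hs g)
      refine Submodule.span_mono (Set.image_mono ?_)
      intro n hn
      by_contra hnA
      exact hn (hg n hnA)

end Run7.h482.SMB
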